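import Pool.Agent.H43.DPC.Targets

set_option autoImplicit false

open MeasureTheory SchwartzMap Filter Topology
open scoped ENNReal ContDiff

namespace Pool.Agent.H1.DPC

open Pool.Agent.H43.DPC

theorem MCT_Nn_zero {d : ℕ} {μ : Measure (SD d)} {n : ℕ}
    (hC : ∃ (C : ℝ) (m : ℕ), 0 ≤ C ∧ ∀ f : S d, Nn μ n f ≤ C * pm m f) (u : ℕ → S d) (y : S d)
    (hu : Tendsto u atTop (𝓝 y)) : Tendsto (fun m => Nn μ n (u m - y)) atTop (𝓝 0) := by
  obtain ⟨C, k, hC0, hC⟩ := hC
  have h0 : ∀ ε, 0 < ε → ∀ᶠ m in atTop, pm k (u m - y) < ε :=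
    fun ε hε => ((schwartz_withSeminorms ℝ (V d) ℝ).tendsto_nhds' u y).mp hu
      (Finset.Iic (k, k)) ε hε
  have h1 : Tendsto (fun m => pm k (u m - y)) atTop (𝓝 0) := by
    rw [Metric.tendsto_nhds]
    intro ε hε
    filter_upwards [h0 ε hε] with m hm
    have h5 : 0 ≤ pm k (u m - y) :=
      apply_nonneg ((Finset.Iic (k, k)).sup (schwartzSeminormFamily ℝ (V d) ℝ)) _
    rw [Real.dist_eq, sub_zero, abs_of_nonneg h5]
    exact hm
  have h2 : Tendsto (fun m => C * pm k (u m - y)) atTop (𝓝 0) := by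
    have h3 := h1.const_mul C
    rw [mul_zero] at h3
    exact h3
  exact squeeze_zero (fun m => ENNReal.toReal_nonneg) (fun m => hC _) h2

theorem MCT (hCTN : T_CTN) (hHOL : T_HOL) : T_MCT := by
  intro d μ hμ hM n g f hg
  rcases Nat.eq_zero_or_pos n with hn | hn
  · subst hn
    have h1 : (fun m => moment μ (g m)) = fun _ => moment μ f :=
      funext fun m => congrArg (moment μ) (Subsingleton.elim _ _)
    rw [h1]
    exact tendsto_const_nhds
  obtain ⟨hb, hMul, -⟩ := hHOL d μ hM
  obtain ⟨M, hMm⟩ := hMul n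
  have hb' : ∀ v : Fin n → S d, |M v| ≤ ∏ i, Nn μ n (v i) := fun v => by
    rw [hMm v]
    exact hb n hn v
  have h0 : ∀ i, Tendsto (fun m => Nn μ n (g m i - f i)) atTop (𝓝 0) :=
    fun i => MCT_Nn_zero (hCTN d μ hM n hn) (fun m => g m i) (f i) (hg i)
  have hterm : ∀ s : Finset (Fin n),
      Tendsto (fun m => M (s.piecewise (fun i => g m i - f i) f)) atTop
        (𝓝 (if s = ∅ then M f else 0)) := by
    intro s
    by_cases hs : s = ∅
    · subst hs
      simp only [Finset.piecewise_empty, if_true]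
      exact tendsto_const_nhds
    · rw [if_neg hs]
      obtain ⟨i₀, hi₀⟩ := Finset.nonempty_iff_ne_empty.mpr hs
      refine squeeze_zero_norm (a := fun m => ∏ i, Nn μ n (s.piecewise (fun i => g m i - f i) f i))
        (fun m => ?_) ?_
      · rw [Real.norm_eq_abs]
        exact hb' _
      · have h2 : Tendsto (fun m => ∏ i, Nn μ n (s.piecewise (fun i => g m i - f i) f i)) atTop
            (𝓝 (∏ i, if i ∈ s then 0 else Nn μ n (f i))) := by
          refine tendsto_finsetProd _ fun i _ => ?_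
          by_cases hi : i ∈ s
          · simp only [Finset.piecewise_eq_of_mem _ _ _ hi, if_pos hi]
            exact h0 i
          · simp only [Finset.piecewise_eq_of_notMem _ _ _ hi, if_neg hi]
            exact tendsto_const_nhds
        have h3 : (∏ i, if i ∈ s then (0 : ℝ) else Nn μ n (f i)) = 0 :=
          Finset.prod_eq_zero (Finset.mem_univ i₀) (if_pos hi₀)
        rw [h3] at h2
        exact h2
  have hsum := tendsto_finsetSum (Finset.univ : Finset (Finset (Fin n))) fun s _ => hterm s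
  rw [Finset.sum_ite_eq' Finset.univ ∅ (fun _ => M f), if_pos (Finset.mem_univ _)] at hsum
  have h4 : (fun m => moment μ (g m)) =
      fun m => ∑ s : Finset (Fin n), M (s.piecewise (fun i => g m i - f i) f) := by
    funext m
    rw [← hMm (g m), ← M.map_add_univ]
    congr 1
    funext i
    simp
  rw [h4, ← hMm f]
  exact hsum

end Pool.Agent.H1.DPC
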